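import Pool.Agent.Y8.EP.Defs

/-! Statements of the steps (Navier-Stokes with linear dissipation comparable to `(-Δ)^α`). -/

open Set Filter Topology MeasureTheory

set_option autoImplicit false

namespace Pool.Agent.Y8.EP

open Pool.Agent.Y5 Pool.Agent.Y5.D Pool.Agent.Y5.E Pool.Agent.Y5.F

/-- The kernels satisfy the hypotheses of `S_ABS2`. -/
def S_EST5 : Prop := ∀ (J : Type) (g : J → ℕ) (κ μ lam Λ M : ℝ) (L C ℓ : ℕ → ℝ) (B : ℕ → ℕ → ℝ)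
  (c : Ix J → Ix J → Ix J → ℝ), Ker g Λ M L C B c → Sq5 κ μ lam Λ M L C ℓ B →
  Adm (dF ℓ (Sd κ μ L) g) (rI L g) c

/-- Energy identity and the reduced system. -/
def S_PERT5 : Prop := ∀ (J : Type) (g : J → ℕ) (κ μ lam Λ M : ℝ) (L C ℓ : ℕ → ℝ)
  (B : ℕ → ℕ → ℝ)
  (c : Ix J → Ix J → Ix J → ℝ), Ker g Λ M L C B c → Sq5 κ μ lam Λ M L C ℓ B →
  ∀ (T : ℝ) (z : Ix J → ℝ → ℝ), ASol2 (dF ℓ (Sd κ μ L) g) (rI L g) c T z →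
    Rapid (rI L g) T z → Init z →
    (∀ t ∈ Ico 0 T, Summable (fun a => z a t ^ 2) ∧ ∑' a, z a t ^ 2 ≤ 1) ∧
    (∀ t ∈ Ico 0 T, Summable (fun a => dF ℓ (Sd κ μ L) g a * z a t ^ 2) ∧
      HasDerivWithinAt (fun τ => ∑' a, z a τ ^ 2)
      (-(2 * ∑' a, dF ℓ (Sd κ μ L) g a * z a t ^ 2)) (Ico 0 T) t) ∧
    ∃ f : ℕ → ℝ → ℝ, Su5 (Λ / lam) (10 ^ 6 * M ^ 4) L C ℓ (Sd κ μ L) B T
      (fun n => z (Sum.inl n)) (wz g z) f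

/-- Rescaling of the reduced system. -/
def S_RESC5 : Prop := ∀ (κ μ lam Λ M : ℝ) (L C ℓ : ℕ → ℝ) (B : ℕ → ℕ → ℝ),
  Sq5 κ μ lam Λ M L C ℓ B →
  Pe κ μ (10 ^ 6 * M ^ 4 * lam ^ 3) (fun n => κ ^ n * L n) (fun n => C n / κ) ℓ B ∧
  ∀ (T : ℝ) (x w f : ℕ → ℝ → ℝ), 0 < T →
    Su5 (Λ / lam) (10 ^ 6 * M ^ 4) L C ℓ (Sd κ μ L) B T x w f →
    SysE κ μ (10 ^ 6 * M ^ 4 * lam ^ 3) (fun n => κ ^ n * L n) (fun n => C n / κ) ℓ B T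
      (fun n t => x n t / κ ^ n) (fun n t => w n t / κ ^ n) (fun n t => f n t / κ ^ n) ∧
    (∀ m, ∀ t ∈ Ico 0 T, √(Yt x w m t) =
      κ ^ m * √(Yk κ (fun n t => x n t / κ ^ n) (fun n t => w n t / κ ^ n) m t)) ∧
    (GrowE κ μ T (fun n t => x n t / κ ^ n) (fun n t => w n t / κ ^ n) → Grow5 κ μ T x w)

/-- Blow-up for the rescaled reduced system. -/
def S_ODE6 : Prop := ∀ (κ lam N : ℝ) (L C ℓ : ℕ → ℝ) (B : ℕ → ℕ → ℝ), Pe κ lam N L C ℓ B →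
  ∃ T₁ : ℝ, ∀ (T : ℝ) (x w f : ℕ → ℝ → ℝ), 0 < T →
    SysE κ lam N L C ℓ B T x w f →
    T ≤ T₁ ∧ (GrowE κ lam T x w ∨
      ∃ (n₀ : ℕ) (K₀ : ℝ), ∃ s ∈ Ico 0 T, ∀ t ∈ Ico s T, ∀ k : ℕ,
        √(Yk κ x w (n₀ + k) t) ≤ K₀ * Real.exp (-(lam / 100 * k)))

/-- Blow-up for the full system of the modes. -/
def S_BLOW5 : Prop := ∀ (J : Type) (g : J → ℕ) (κ μ lam Λ M : ℝ) (L C ℓ : ℕ → ℝ)
  (B : ℕ → ℕ → ℝ)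
  (c : Ix J → Ix J → Ix J → ℝ), Ker g Λ M L C B c → Sq5 κ μ lam Λ M L C ℓ B →
  ∃ (T : ℝ) (z : Ix J → ℝ → ℝ), 0 < T ∧
    ASol2 (dF ℓ (Sd κ μ L) g) (rI L g) c T z ∧ Init z ∧ Rapid (rI L g) T z ∧
    (∀ (T' : ℝ) (z' : Ix J → ℝ → ℝ), 0 < T' →
      ASol2 (dF ℓ (Sd κ μ L) g) (rI L g) c T' z' → Init z' →
      T' ≤ T ∧ ∀ a, ∀ t ∈ Ico 0 T', z' a t = z a t) ∧
    (∀ t ∈ Ico 0 T, Summable (fun a => z a t ^ 2) ∧ ∑' a, z a t ^ 2 ≤ 1) ∧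
    (∀ t ∈ Ico 0 T, Summable (fun a => dF ℓ (Sd κ μ L) g a * z a t ^ 2) ∧
      HasDerivWithinAt (fun τ => ∑' a, z a τ ^ 2)
      (-(2 * ∑' a, dF ℓ (Sd κ μ L) g a * z a t ^ 2)) (Ico 0 T) t) ∧
    Grow5 κ μ T (fun n => z (Sum.inl n)) (wz g z)

/-- Assembly of the blow-up for the full system. -/
def S_BLOWA5 : Prop := S_ABS2 → S_EST5 → S_PERT5 → S_RESC5 → S_ODE6 → S_BLOW5

/-- Choice of the scales `K n = K₀ * R ^ n`, `Λ = R`, `lam = R ^ (5/2)`, `μ = R ^ (2 α)`,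
`κ = R ^ (2 α - 5/2)`, `γ = κ * exp (- (6/100) μ)`, `ℓ (n+1) = 9/10 * κ^n * L n`. -/
def S_SEQ5 : Prop := ∀ (ν α β D : ℝ) (p K₁ : ℕ), 0 < ν → 1 ≤ α → α < 5 / 4 →
  0 < β → 0 < D → 0 < K₁ →
  ∃ (K₀ R : ℕ) (κ μ lam γ : ℝ) (ℓ : ℕ → ℝ), K₁ ≤ K₀ ∧ 20 ∣ K₀ ∧ 10 ^ 6 ≤ K₀ ∧ K₁ ≤ R ∧
    10 ^ 12 ≤ R ∧ lam = (R : ℝ) ^ 2 * √(R : ℝ) ∧ 0 < γ ∧ γ * (R : ℝ) ^ p ≤ 1 ∧
    (∀ n : ℕ, 2 * (ν * ((2 * Real.pi) ^ (2 * α) * (4 * ((K₀ : ℝ) * R ^ n) ^ (2 * α)))) ≤ ℓ n) ∧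
    (∀ n : ℕ, 2 * (ν * (2 * Real.pi * (13 / 10 * ((K₀ : ℝ) * R ^ (n + 1)))) ^ (2 * α)) ≤
      Real.exp μ * (κ ^ n * (β * (((K₀ : ℝ) * R ^ n) ^ 2 * √((K₀ : ℝ) * R ^ n))))) ∧
    (∃ D' : ℝ, 0 < D' ∧ ∀ n : ℕ, κ ^ n * (β * (((K₀ : ℝ) * R ^ n) ^ 2 * √((K₀ : ℝ) * R ^ n))) ≤
      D' * (13 / 10 * ((K₀ : ℝ) * R ^ (n + 1))) ^ (2 * α)) ∧
    1 ≤ D * ((K₀ : ℝ) * √(K₀ : ℝ)) ∧
    (R : ℝ) * √(R : ℝ) ≤ Real.exp (μ / 1000) * D ∧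
    10 ^ 9 ≤ κ * ((R : ℝ) * √(R : ℝ)) ∧
    ∀ (C : ℕ → ℝ) (B : ℕ → ℕ → ℝ), (∀ n, γ ≤ C n * (R : ℝ) ^ p) →
      (∀ n, C n ≤ γ * (R : ℝ) ^ p) → (∀ i n, i < n → 999 / 1000 ≤ B i n) →
      (∀ i n, i < n → B i n ≤ 1001 / 1000) →
      Sq5 κ μ lam R (1 + 100 * (R : ℝ) ^ 3 / β)
        (fun n => β * (((K₀ : ℝ) * R ^ n) ^ 2 * √((K₀ : ℝ) * R ^ n))) C ℓ B

/-- The concrete kernel: packets of trigonometric polynomials, completed to an orthonormal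
system. -/
def S_CONC5 : Prop := ∀ ν α : ℝ, 0 < ν → 1 ≤ α → α < 5 / 4 →
  ∃ (J : Type) (g : J → ℕ) (κ μ lam Λ M : ℝ) (F L C ℓ N G : ℕ → ℝ)
  (B : ℕ → ℕ → ℝ) (e : Ix J → Fam), Conc4 ν α α κ μ lam g F L ℓ N G e ∧
    Sq5 κ μ lam Λ M L C ℓ B ∧
    Ker g Λ M L C B (fun j a b => bil (e a) (e b) (e j))

/-- Completion of the packets to an orthonormal system, and bounds for the kernel. -/
def S_ONB5 : Prop := S_TAB2 → S_SEQ5 → S_CONC5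

/-- The main theorem: for all `1 ≤ α < 5/4` the Navier-Stokes equations with a
suitable linear dissipation `L`, `ν (-Δ)^α ≤ L ≤ C (-Δ)^α`, can blow up. -/
def S_MAIN5 : Prop := ∀ ν α : ℝ, 0 < ν → 1 ≤ α → α < 5 / 4 →
  ∃ (ι : Type) (e : ι → E3 → E3) (lam : ι → ℝ) (i₀ : ι) (T : ℝ) (u : ℝ → E3 → E3),
    Diss4 ν α α e lam ∧ 0 < T ∧ Sol2 e lam T u ∧ u 0 = e i₀ ∧
    -- uniqueness, and `T` is the maximal time of existence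
    (∀ (T' : ℝ) (v : ℝ → E3 → E3), 0 < T' → Sol2 e lam T' v → v 0 = e i₀ →
      T' ≤ T ∧ ∀ t ∈ Ico 0 T', v t = u t) ∧
    -- energy identity
    (∀ t ∈ Ico 0 T, HasDerivWithinAt (fun τ => ip (u τ) (u τ))
      (-(2 * ∑' i, lam i * ip (u t) (e i) ^ 2)) (Ico 0 T) t) ∧
    -- blow-up of the velocity
    ∀ M : ℝ, ∃ t ∈ Ico 0 T, ∃ y, M < ‖u t y‖

/-- The passage to fields. -/
def S_PHYS5 : Prop := S_FLD2 → S_BLOW5 → S_CONC5 → S_MAIN5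

end Pool.Agent.Y8.EP
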