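import Pool.Agent.Y421.NF.EST4
import Pool.Agent.Y8.EP.Stm

/-!
`S_EST5`: the kernels satisfy the hypotheses of the well-posedness theorem
(adapted from `Pool/Agent/Y421/NF/EST4.lean`).
-/

open Set Filter Topology

set_option autoImplicit false

namespace Pool.Agent.Y8.EP

open Pool.Agent.Y5.D Pool.Agent.Y5.E Pool.Agent.Y5.F Pool.Agent.Y290.NE Pool.Agent.Y421.NF

section

variable {J : Type} {g : J → ℕ} {lam Λ M : ℝ} {L C C' ℓ : ℕ → ℝ} {B B' : ℕ → ℕ → ℝ}
  {c : Ix J → Ix J → Ix J → ℝ}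

/-- the conditions which do not involve the kernel -/
lemma aux_Sq5 {κ μ : ℝ} (h : Sq5 κ μ lam Λ M L C ℓ B) :
    Sq lam Λ M L (fun _ => Real.exp (-(300 / 10000 * lam)))
      (fun n => 1 / (10 ^ 6 * lam * Λ ^ 2) * Λ ^ (2 * n)) (fun _ _ => 1) := by
  have hκ0 := h.κ0
  have hκ1 := h.κ1
  have hκs := h.κs
  have hμ := h.μ_big
  have h30 : (0 : ℝ) < 10 ^ 30 := by positivity
  have hμ0 : 0 < μ := lt_of_lt_of_le h30 hμ
  have hl0 : 0 < lam := by
    have e := h.μ_eq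
    by_contra hc
    push Not at hc
    have : κ * lam ≤ 0 := mul_nonpos_of_nonneg_of_nonpos hκ0.le hc
    linarith
  have hlam : μ ≤ lam := by
    have e := h.μ_eq
    have := mul_le_mul_of_nonneg_right hκ1 hl0.le
    linarith
  have hlam1 : 1 ≤ lam := by
    have h1 : (1 : ℝ) ≤ 10 ^ 30 := by norm_num
    linarith
  have hL0 := h.L0
  have hΛ := h.Λ_ge
  have hΛ2 : (4 : ℝ) ≤ Λ ^ 2 := by nlinarith
  have hL : ∀ n, lam ^ n ≤ L n := by
    intro n
    induction n with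
    | zero => simpa using hL0
    | succ n ih =>
      rw [h.L_succ, pow_succ, mul_comm]
      exact mul_le_mul_of_nonneg_left ih hl0.le
  have hΛl : Λ ^ 2 ≤ lam * (9 / 1000) := by
    have h1 := h.Λ_sq
    have e := h.μ_eq
    have h2 : κ * lam ≤ 1 / 1000 * lam := mul_le_mul_of_nonneg_right hκs hl0.le
    linarith
  refine ⟨by linarith, hL0, h.L_succ, h.Λ_ge, h.Λ_sq.trans hlam, h.M_one, ?_, ?_, ?_, ?_, ?_,
    ?_, ?_, ?_, ?_⟩
  · have h1 := h.exp_big
    have h2 : Real.exp (μ / 10 ^ 6) ≤ Real.exp (lam / 10 ^ 6) := by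
      apply Real.exp_le_exp.2
      exact div_le_div_of_nonneg_right hlam (by positivity)
    refine le_trans ?_ (h1.trans h2)
    have hM := h.M_one
    have hM4 : (0 : ℝ) ≤ 10 ^ 6 * M ^ 4 := by positivity
    apply pow_le_pow_left₀ hM4
    have h3 : (1 : ℝ) ≤ lam ^ 3 := one_le_pow₀ hlam1
    calc (10 : ℝ) ^ 6 * M ^ 4 = 10 ^ 6 * M ^ 4 * 1 := by ring
      _ ≤ _ := mul_le_mul_of_nonneg_left h3 hM4
  · intro n
    apply Real.exp_le_exp.2
    linarith
  · intro n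
    apply Real.exp_le_exp.2
    linarith
  · intro i n _
    norm_num
  · intro i n _
    norm_num
  · intro n
    positivity
  · have e : 10 ^ 6 * (1 / (10 ^ 6 * lam * Λ ^ 2) * Λ ^ (2 * 0) * lam) = 1 / Λ ^ 2 := by
      field_simp
      ring
    rw [e, div_le_iff₀ (by positivity)]
    nlinarith
  · intro n
    have e : 10 ^ 6 * (1 / (10 ^ 6 * lam * Λ ^ 2) * Λ ^ (2 * (n + 1))) = (Λ ^ 2) ^ n / lam := by
      field_simp
      ring
    rw [e]
    have h1 : (Λ ^ 2) ^ n ≤ (lam * (9 / 1000)) ^ n := pow_le_pow_left₀ (by positivity) hΛl n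
    have h2 : (lam * (9 / 1000)) ^ n ≤ L n * (9 / 1000) ^ n := by
      rw [mul_pow]
      exact mul_le_mul_of_nonneg_right (hL n) (by positivity)
    have h3 : (Λ ^ 2) ^ n / lam ≤ (Λ ^ 2) ^ n := div_le_self (by positivity) hlam1
    linarith
  · exact ⟨1 / (10 ^ 6 * lam * Λ ^ 2), by positivity, fun n => le_rfl⟩

lemma d_low5 {κ μ : ℝ} (h : Sq5 κ μ lam Λ M L C ℓ B) :
    ∃ a, 0 < a ∧ ∀ (m : ℕ) (i : Ix J), gr g i = m →
    a * (Λ ^ m) ^ 2 ≤ 1 + dF ℓ (Sd κ μ L) g i := by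
  obtain ⟨a, ha, hl⟩ := h.ℓ_low
  have hΛ := h.Λ_ge
  have hκ0 := h.κ0
  have h30 : (0 : ℝ) < 10 ^ 30 := by positivity
  have hμ0 : 0 < μ := lt_of_lt_of_le h30 h.μ_big
  refine ⟨min 1 a, lt_min one_pos ha, ?_⟩
  rintro m (n | j) hi
  · have hi' : n = m := hi
    subst hi'
    have h1 := hl n
    have h2 : (0 : ℝ) ≤ (Λ ^ n) ^ 2 := sq_nonneg _
    have h3 : min 1 a * (Λ ^ n) ^ 2 ≤ a * (Λ ^ n) ^ 2 :=
      mul_le_mul_of_nonneg_right (min_le_right _ _) h2
    have h4 : dF ℓ (Sd κ μ L) g (Sum.inl n) = ℓ n := rfl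
    rw [h4]
    have h5 : Λ ^ (2 * n) = (Λ ^ n) ^ 2 := by rw [← pow_mul, mul_comm]
    rw [h5] at h1
    linarith
  · have hi' : g j = m := hi
    have h4 : dF ℓ (Sd κ μ L) g (Sum.inr j) = Real.exp μ * (κ ^ (g j) * L (g j)) := rfl
    rw [h4, hi']
    have h2 : (0 : ℝ) ≤ (Λ ^ m) ^ 2 := sq_nonneg _
    have h3 : min 1 a * (Λ ^ m) ^ 2 ≤ 1 * (Λ ^ m) ^ 2 :=
      mul_le_mul_of_nonneg_right (min_le_left _ _) h2
    have h5 : (Λ ^ m) ^ 2 ≤ κ ^ m * L m := by
      have h6 : ∀ n : ℕ, (Λ ^ n) ^ 2 ≤ κ ^ n * L n := by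
        intro n
        induction n with
        | zero => simpa using h.L0
        | succ n ih =>
          rw [h.L_succ]
          calc (Λ ^ (n + 1)) ^ 2 = Λ ^ 2 * (Λ ^ n) ^ 2 := by ring
            _ ≤ μ * (κ ^ n * L n) := mul_le_mul h.Λ_sq ih (sq_nonneg _) hμ0.le
            _ = κ ^ (n + 1) * (lam * L n) := by rw [h.μ_eq]; ring
      exact h6 m
    have h7 : 1 ≤ Real.exp μ := Real.one_le_exp hμ0.le
    nlinarith

end

theorem t_EST5 : S_EST5 := by
  intro J g κ μ lam Λ M L C ℓ B c hK h4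
  have hS := aux_Sq5 h4
  have hM := hS.M_one
  have hΛ := hS.Λ_ge
  have hlam := lam_two hS
  have hL := L_pos hS
  have hL1 := (L_geo hS).1
  have hd0 : ∀ i, 0 ≤ dF ℓ (Sd κ μ L) g i := by
    rintro (n | j)
    · exact h4.ℓ_nonneg n
    · exact mul_nonneg (Real.exp_pos _).le (mul_nonneg (pow_nonneg h4.κ0.le _) (hL _).le)
  refine ⟨hd0, fun i => hL1 _, ?_, ?_, ?_, ?_⟩
  · -- finiteness
    intro R
    obtain ⟨N, hN⟩ : ∃ N : ℕ, R < 2 ^ N := by
      obtain ⟨N, hN⟩ := pow_unbounded_of_one_lt R (show (1 : ℝ) < 2 by norm_num)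
      exact ⟨N, hN⟩
    apply (bfin hK.fin N).subset
    intro i hi
    by_contra hc
    have hc' : N ≤ gr g i := not_lt.1 hc
    have h1 : L N ≤ L (gr g i) := L_mono hS hc'
    have h2 := (L_geo hS).2 0 N
    rw [zero_add] at h2
    have h3 := hS.L0
    have h4 : rI L g i ≤ R := hi
    unfold rI at h4
    have h5 : (0 : ℝ) < 2 ^ N := by positivity
    nlinarith
  · intro i z y hz hy
    exact summ hK hS z y hz hy i
  · intro i
    exact ⟨_, fun z y hz hy => loc_est hK hS z y hz hy i⟩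
  · intro k
    obtain ⟨a, ha, hd⟩ := d_low5 (g := g) h4
    refine ⟨a⁻¹ * (1152 * (2 * M * lam ^ (k + 1)) ^ 2), ?_⟩
    intro z y hz hy
    have hmono : ∀ z : Ix J → ℝ, Sk (rI L g) (k + 1) z → Sk (rI L g) 1 z := by
      intro z hz
      apply Summable.of_nonneg_of_le (fun _ => sq_nonneg _) _ hz
      intro i
      have h1 : 1 ≤ rI L g i := hL1 _
      have h2 : rI L g i ^ 1 ≤ rI L g i ^ (k + 1) := pow_le_pow_right₀ h1 (by omega)
      rw [mul_pow, mul_pow]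
      apply mul_le_mul_of_nonneg_right _ (sq_nonneg _)
      apply pow_le_pow_left₀ (by positivity) h2
    have hz1 := hmono z hz
    have hy1 := hmono y hy
    set R := 1152 * (2 * M * lam ^ (k + 1)) ^ 2 * (nk (rI L g) 1 z * nk (rI L g) (k + 1) y +
        nk (rI L g) (k + 1) z * nk (rI L g) 1 y) with hR
    have e1 : ∀ N', ∑ m ∈ Finset.range N', ∑ i ∈ GG hK.fin m,
        (L m ^ (k + 1) * (Λ ^ m)⁻¹) ^ 2 * bl c z y i ^ 2 ≤ R := by
      intro N'
      have ht : Tendsto (fun N => ∑ m ∈ Finset.range N', ∑ i ∈ GG hK.fin m,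
          (L m ^ (k + 1) * (Λ ^ m)⁻¹) ^ 2 * blN hK.fin c z y N i ^ 2) atTop
          (𝓝 (∑ m ∈ Finset.range N', ∑ i ∈ GG hK.fin m,
          (L m ^ (k + 1) * (Λ ^ m)⁻¹) ^ 2 * bl c z y i ^ 2)) := by
        apply tendsto_finsetSum
        intro m _
        apply tendsto_finsetSum
        intro i _
        exact ((tends hK hS z y hz1 hy1 i).pow 2).const_mul _
      exact le_of_tendsto' ht fun N => est_N hK hS k z y hz hy hz1 hy1 N N'
    have e2 : ∀ N', ∑ i ∈ BB hK.fin N', (rI L g i ^ (k + 1) * bl c z y i) ^ 2 /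
        (1 + dF ℓ (Sd κ μ L) g i) ≤ a⁻¹ * R := by
      intro N'
      rw [sum_BB]
      calc _ ≤ ∑ m ∈ Finset.range N', ∑ i ∈ GG hK.fin m,
            a⁻¹ * ((L m ^ (k + 1) * (Λ ^ m)⁻¹) ^ 2 * bl c z y i ^ 2) := by
            refine Finset.sum_le_sum fun m _ => Finset.sum_le_sum fun i hi => ?_
            rw [mem_GG] at hi
            have h1 := hd m i hi
            have hΛm : 0 < Λ ^ m := pow_pos (by linarith) _
            have h2 : 0 < a * (Λ ^ m) ^ 2 := by positivity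
            unfold rI
            rw [hi]
            calc (L m ^ (k + 1) * bl c z y i) ^ 2 / (1 + dF ℓ (Sd κ μ L) g i)
                ≤ (L m ^ (k + 1) * bl c z y i) ^ 2 / (a * (Λ ^ m) ^ 2) :=
                  div_le_div_of_nonneg_left (sq_nonneg _) h2 h1
              _ = a⁻¹ * ((L m ^ (k + 1) * (Λ ^ m)⁻¹) ^ 2 * bl c z y i ^ 2) := by
                  field_simp
        _ = a⁻¹ * ∑ m ∈ Finset.range N', ∑ i ∈ GG hK.fin m,
            (L m ^ (k + 1) * (Λ ^ m)⁻¹) ^ 2 * bl c z y i ^ 2 := by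
            rw [Finset.mul_sum]
            refine Finset.sum_congr rfl fun m _ => ?_
            rw [Finset.mul_sum]
        _ ≤ _ := mul_le_mul_of_nonneg_left (e1 N') (inv_nonneg.2 ha.le)
    have hpos : ∀ i, 0 ≤ (rI L g i ^ (k + 1) * bl c z y i) ^ 2 /
        (1 + dF ℓ (Sd κ μ L) g i) := by
      intro i
      have := hd0 i
      positivity
    have e3 : ∀ u : Finset (Ix J), ∑ i ∈ u, (rI L g i ^ (k + 1) * bl c z y i) ^ 2 /
        (1 + dF ℓ (Sd κ μ L) g i) ≤ a⁻¹ * R := by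
      intro u
      obtain ⟨N, hN⟩ := exists_BB hK.fin u
      exact (Finset.sum_le_sum_of_subset_of_nonneg hN (fun i _ _ => hpos i)).trans (e2 N)
    have hsum := summable_of_sum_le hpos e3
    refine ⟨hsum, ?_⟩
    refine (Summable.tsum_le_of_sum_le hsum e3).trans (le_of_eq ?_)
    rw [hR]
    ring

end Pool.Agent.Y8.EP
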