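import Pool.Agent.Y8.EP.Main5
import Pool.Agent.Y8.EP.EST5
import Pool.Agent.Y210.EP.EX6
import Pool.Agent.Y350.EP.Asm6
import Pool.Agent.Y350.EP.Dis6
import Pool.Agent.Y274.NE.B5
import Pool.Agent.Y301.G.UNI
import Pool.Agent.Y288.NS.Obc

/-! The main theorem of the endpoint stage. -/

set_option autoImplicit false

namespace Pool.Agent.Y8.EP

open Pool.Agent.Y5 Pool.Agent.Y5.D Pool.Agent.Y5.E Pool.Agent.Y5.F Pool.Agent.Y5.G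

theorem t_BLOW5 : S_BLOW5 :=
  Pool.Agent.Y48.EP.t_BLOWA5 Pool.Agent.Y37.NE.t_ABS2 t_EST5 Pool.Agent.Y710.EP.t_PERT5
    Pool.Agent.Y941.EP.t_RESC5 t_ODE6

theorem t_EX6 : S_EX6 :=
  Pool.Agent.Y210.EP.t_EXA6 Pool.Agent.Y274.NE.t_FLD2 t_BLOW5 t_CONC5

theorem t_OBC6 : S_OBC :=
  Pool.Agent.Y288.NS.t_OBC Pool.Agent.Y288.NS.t_DIL Pool.Agent.Y288.NS.t_CMP

theorem t_DIS6 : S_DIS6 :=
  Pool.Agent.Y350.EP.t_DISA6 Pool.Agent.Y274.NE.t_FLD2 Pool.Agent.Y288.NS.t_DIL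
    Pool.Agent.Y288.NS.t_CMP t_OBC6

theorem t_MAIN6 : S_MAIN6 :=
  Pool.Agent.Y350.EP.t_ASM6 Pool.Agent.Y274.NE.t_FLD2 t_EX6 Pool.Agent.Y301.G.t_UNI
    Pool.Agent.Y288.NS.t_DIL Pool.Agent.Y288.NS.t_CMP t_OBC6 t_DIS6



end Pool.Agent.Y8.EP
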