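import Pool.Agent.Y5.F.Stm

/-!
Definitions for the Navier-Stokes equations with additional linear dissipation of the same order
`2 α` (the endpoint `α' = α`: the linear dissipation is comparable to `(-Δ)^α`).

The damping of the main modes is comparable to the rates of the energy transfer:
`ℓ (n+1) = 9/10 * κ^n * L n`. It regulates the amplitudes of the main modes: the mode `n + 1` grows
only while `x n > (9/10) κ^n`, and the mode `n + 2` takes over soon after `x (n+1)` has crossed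
`(9/10) κ^(n+1)`; so the amplitudes stay between `κ^n` and `(3/2) κ^n`.
-/

open Set Filter Topology MeasureTheory

set_option autoImplicit false

namespace Pool.Agent.Y8.EP

open Pool.Agent.Y5.D Pool.Agent.Y5.E Pool.Agent.Y5.F

/-! ### Parameters -/

/-- Conditions on the parameters (as `Sq4`; new: `κs`, `C_lo`, `C_hi`, `ℓ_succ`). -/
structure Sq5 (κ μ lam Λ M : ℝ) (L C ℓ : ℕ → ℝ) (B : ℕ → ℕ → ℝ) : Prop where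
  κ0 : 0 < κ
  κ1 : κ ≤ 1
  κs : κ ≤ 1 / 1000
  μ_eq : μ = κ * lam
  μ_big : 10 ^ 30 ≤ μ
  L0 : 1 ≤ L 0
  L_succ : ∀ n, L (n + 1) = lam * L n
  Λ_ge : 2 ≤ Λ
  Λ_sq : Λ ^ 2 ≤ μ
  M_one : 1 ≤ M
  exp_big : (10 ^ 6 * M ^ 4 * lam ^ 3) ^ 10 ≤ Real.exp (μ / 10 ^ 6)
  C_lo : ∀ n, κ * Real.exp (-(601 / 10000 * μ)) ≤ C n
  C_hi : ∀ n, C n ≤ κ * Real.exp (-(599 / 10000 * μ))
  B_lo : ∀ i n, i < n → 999 / 1000 ≤ B i n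
  B_hi : ∀ i n, i < n → B i n ≤ 1001 / 1000
  ℓ_nonneg : ∀ n, 0 ≤ ℓ n
  ℓ_zero : 10 ^ 6 * (ℓ 0 * μ) ≤ L 0
  ℓ_succ : ∀ n, ℓ (n + 1) = 9 / 10 * (κ ^ n * L n)
  ℓ_low : ∃ a, 0 < a ∧ ∀ n, a * Λ ^ (2 * n) ≤ ℓ n

/-! ### The reduced system -/

/-- The reduced system (as `Su`; new: the damping `ℓ (n+1)` in `dY`, and two factors `2`). -/
structure Su5 (q N : ℝ) (L C ℓ S : ℕ → ℝ) (B : ℕ → ℕ → ℝ) (T : ℝ) (x w f : ℕ → ℝ → ℝ) :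
    Prop where
  dx : ∀ n, ∀ t ∈ Ico 0 T, HasDerivWithinAt (x n)
    (vf3 L C ℓ B (fun m => x m t) n + f n t) (Ico 0 T) t
  fb : ∀ n, ∀ t ∈ Ico 0 T, |f n t| ≤ N * (L n * (Aq q x w n t + √(Yt x w n t)) * √(Wt w n t)
    + Uw L w n t * √(Yt x w n t) + L n * Awq q w n t * √(Yt x w (n + 1) t) + loc L x w n t)
  w0 : ∀ n, ∀ t ∈ Ico 0 T, 0 ≤ w n t
  dw : ∀ n, ∀ t ∈ Ico 0 T, ∃ D, HasDerivWithinAt (fun τ => w n τ ^ 2) D (Ico 0 T) t ∧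
    D ≤ -(2 * S n * w n t ^ 2) + 2 * w n t * (N * (
      L n * (Aq q x w n t + √(Yt x w n t)) * √(Yt x w n t)
      + (if n = 0 then 0 else L (n - 1) * Aq q x w n t * (|x (n - 1) t| + w (n - 1) t))))
  dY0 : ∀ t ∈ Ico 0 T, ∃ D, HasDerivWithinAt (Yt x w 0) D (Ico 0 T) t ∧ D ≤ 0
  dY : ∀ n, ∀ t ∈ Ico 0 T, ∃ D, HasDerivWithinAt (Yt x w (n + 1)) D (Ico 0 T) t ∧
    D ≤ 2 * (C n * L n * x n t ^ 2 + N * loc L x w (n + 1) t) * √(Yt x w (n + 1) t)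
      + 2 * (1001 / 1000 * Ut L x (n + 1) t + N * Uw L w (n + 1) t
        + 2 * N * (Ut L x (n + 1) t ^ 2 / S (n + 1)) - ℓ (n + 1)) * Yt x w (n + 1) t
      + 2 * N * (L n ^ 2 / S (n + 1) * (Aq q x w (n + 1) t ^ 2 * (|x n t| + w n t) ^ 2))
  bdd : ∀ k : ℕ, ∀ T' < T, ∃ M, ∀ t ∈ Icc 0 T', ∀ n, L n ^ k * (|x n t| + w n t) ≤ M
  en : ∀ t ∈ Ico 0 T, Yt x w 0 t ≤ 1
  x0 : x 0 0 = 1
  xs : ∀ n, x (n + 1) 0 = 0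
  ws : ∀ n, w n 0 = 0

/-- The growth of the main modes (as `Grow4`, with `μ / 250` instead of `μ / 100`). -/
def Grow5 (κ μ T : ℝ) (x w : ℕ → ℝ → ℝ) : Prop :=
  ∀ n, ∃ t ∈ Ico 0 T, ∃ a, (9 / 1000 * κ) ^ n ≤ a ∧ 99 / 100 * a ≤ x n t ∧
    (∀ i < n, |x i t| ≤ 200 * (1000 / (9 * κ)) ^ (n - i) * a) ∧
    (∀ i ≤ n, w i t ≤ Real.exp (-(μ / 10)) * (1000 / (9 * κ)) ^ (n - i) * a) ∧
    ∀ k : ℕ, √(Yt x w (n + 1 + k) t) ≤ Real.exp (-(μ / 250 * (k + 1))) * a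

/-! ### The rescaled system: `x n / κ ^ n`, `κ ^ n * L n`, `C n / κ` -/

/-- Conditions on the parameters of the rescaled system. -/
structure Pe (κ lam N : ℝ) (L C ℓ : ℕ → ℝ) (B : ℕ → ℕ → ℝ) : Prop where
  κ0 : 0 < κ
  κ1 : κ ≤ 1
  κs : κ ≤ 1 / 1000
  κN : 1 ≤ κ * N
  lam_big : 10 ^ 30 ≤ lam
  L0 : 1 ≤ L 0
  L_succ : ∀ n, L (n + 1) = lam * L n
  N_one : 1 ≤ N
  N_le : N ≤ Real.exp (lam / 10 ^ 7)
  C_lo : ∀ n, Real.exp (-(601 / 10000) * lam) ≤ C n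
  C_hi : ∀ n, C n ≤ Real.exp (-(599 / 10000) * lam)
  B_lo : ∀ i n, i < n → 999 / 1000 ≤ B i n
  B_hi : ∀ i n, i < n → B i n ≤ 1001 / 1000
  ℓ_nonneg : ∀ n, 0 ≤ ℓ n
  ℓ_zero : 10 ^ 6 * (ℓ 0 * lam) ≤ L 0
  ℓ_succ : ∀ n, ℓ (n + 1) = 9 / 10 * L n

/-- The rescaled reduced system (as `SysK`; new: the damping `ℓ (n+1)` in `dY`). -/
structure SysE (κ lam N : ℝ) (L C ℓ : ℕ → ℝ) (B : ℕ → ℕ → ℝ) (T : ℝ) (x w f : ℕ → ℝ → ℝ) :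
    Prop where
  dx : ∀ n, ∀ t ∈ Ico 0 T, HasDerivWithinAt (x n)
    (vfk κ L C ℓ B (fun m => x m t) n + f n t) (Ico 0 T) t
  fb : ∀ n, ∀ t ∈ Ico 0 T, |f n t| ≤ N * (L n * (At lam x w n t + √(Yk κ x w n t))
      * √(Wk κ w n t)
    + Uw L w n t * √(Yk κ x w n t) + L n * Aw lam w n t * √(Yk κ x w (n + 1) t)
    + loc L x w n t)
  w0 : ∀ n, ∀ t ∈ Ico 0 T, 0 ≤ w n t
  dw : ∀ n, ∀ t ∈ Ico 0 T, ∃ D, HasDerivWithinAt (fun τ => w n τ ^ 2) D (Ico 0 T) t ∧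
    D ≤ -(2 * Real.exp lam * L n * w n t ^ 2) + 2 * w n t * (N * (
      L n * (At lam x w n t + √(Yk κ x w n t)) * √(Yk κ x w n t)
      + (if n = 0 then 0 else L (n - 1) * At lam x w n t * (|x (n - 1) t| + w (n - 1) t))))
  dY0 : ∀ t ∈ Ico 0 T, ∃ D, HasDerivWithinAt (Yk κ x w 0) D (Ico 0 T) t ∧ D ≤ 0
  dY : ∀ n, ∀ t ∈ Ico 0 T, ∃ D, HasDerivWithinAt (Yk κ x w (n + 1)) D (Ico 0 T) t ∧
    D ≤ 2 * (C n * L n * x n t ^ 2 + N * loc L x w (n + 1) t) * √(Yk κ x w (n + 1) t)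
      + 2 * (1001 / 1000 * Ut L x (n + 1) t + N * Uw L w (n + 1) t
        + N / Real.exp lam * (Ut L x (n + 1) t ^ 2 / L (n + 1)) - ℓ (n + 1))
          * Yk κ x w (n + 1) t
      + N / Real.exp lam * (L n * At lam x w (n + 1) t ^ 2 * (|x n t| + w n t) ^ 2)
  bdd : ∀ T' < T, ∃ M, ∀ t ∈ Icc 0 T', ∀ n, L n ^ 10 * (|x n t| + w n t) ≤ M
  en : ∀ t ∈ Ico 0 T, Yk κ x w 0 t ≤ 1
  x0 : x 0 0 = 1
  xs : ∀ n, x (n + 1) 0 = 0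
  ws : ∀ n, w n 0 = 0

/-- The growth of the main modes in the rescaled system (as `GrowK`, with `lam / 250`). -/
def GrowE (κ lam T : ℝ) (x w : ℕ → ℝ → ℝ) : Prop :=
  ∀ n, ∃ t ∈ Ico 0 T, ∃ a, (9 / 1000) ^ n ≤ a ∧ 99 / 100 * a ≤ x n t ∧
    (∀ i < n, |x i t| ≤ 200 * (1000 / 9) ^ (n - i) * a) ∧
    (∀ i ≤ n, w i t ≤ Real.exp (-(lam / 10)) * (1000 / 9) ^ (n - i) * a) ∧
    ∀ k : ℕ, √(Yk κ x w (n + 1 + k) t) ≤ Real.exp (-(lam / 250 * (k + 1))) * a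

end Pool.Agent.Y8.EP
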