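import Pool.Agent.Y37.NE.ABS2
import Pool.Agent.Y710.EP.PERT5
import Pool.Agent.Y941.EP.Resc5
import Pool.Agent.Y319.EP.SEQ5
import Pool.Agent.Y809.EP.ONB5
import Pool.Agent.Y48.EP.BlowA5
import Pool.Agent.Y155.NE.TAB2
import Pool.Agent.Y664.EP.UB
import Pool.Agent.Y41.EP.Rat
import Pool.Agent.Y363.EP.BAR1
import Pool.Agent.Y781.EP.Bar2
import Pool.Agent.Y287.EP.Close
import Pool.Agent.Y319.EP.IND

/-! Assembly of the endpoint stage. -/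

set_option autoImplicit false

namespace Pool.Agent.Y8.EP

open Pool.Agent.Y5 Pool.Agent.Y5.D Pool.Agent.Y5.E Pool.Agent.Y5.F

theorem t_CURC : S_CURC :=
  Pool.Agent.Y287.EP.t_CLOSE Pool.Agent.Y664.EP.t_UB Pool.Agent.Y363.EP.t_BAR1
    Pool.Agent.Y781.EP.t_BAR2 Pool.Agent.Y41.EP.t_RAT

theorem t_CONC5 : S_CONC5 :=
  Pool.Agent.Y809.EP.t_ONB5 Pool.Agent.Y155.NE.t_TAB2 Pool.Agent.Y319.EP.t_SEQ5

theorem t_ODE6 : S_ODE6 :=
  Pool.Agent.Y319.EP.t_IND Pool.Agent.Y664.EP.t_UB t_CURC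

end Pool.Agent.Y8.EP
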