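import Pool.Agent.Y8.EP.Q1

/-!
The stages of the endpoint dynamics: definitions, and the statements of the steps.

The stage `n` begins at the time `σ n`, when the energy of the modes of the groups `≥ n` is `1`
(`√(Yk κ x w n (σ n)) = 1`); all active main modes stay between `999/1000` and `3/2`.
-/

open Set Filter Topology MeasureTheory

set_option autoImplicit false

namespace Pool.Agent.Y8.EP

open Pool.Agent.Y5.E (At Aw Ut Uw loc)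
open Pool.Agent.Y5.F (vfk Yk Wk)

/-- the size of the other modes -/
noncomputable def dd (lam : ℝ) : ℝ := Real.exp (-(1 / 2) * lam)
/-- exponents of the tails -/
noncomputable def Pp (j : ℕ) : ℝ := 4 / 1000 + 558 / 10000 * j
/-- exponents of the negative parts -/
noncomputable def Pn (j : ℕ) : ℝ := 603 / 10000 + 558 / 10000 * j

/-- The state at the beginning of the stage `n`. -/
structure Stg (κ lam : ℝ) (L : ℕ → ℝ) (T : ℝ) (x w : ℕ → ℝ → ℝ) (n : ℕ) (σ : ℕ → ℝ) :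
    Prop where
  σ0 : σ 0 = 0
  σlt : ∀ i < n, σ i < σ (i + 1)
  σT : σ n < T
  dur : ∀ i < n, σ (i + 1) - σ i ≤ 62 / 100 * lam / L i
  aY : ∀ i ≤ n, √(Yk κ x w i (σ i)) = 1
  wi : ∀ i ≤ n, w i (σ i) ≤ dd lam
  init : 9999 / 10000 ≤ x n (σ n)
  prev : n ≠ 0 → 999 / 1000 ≤ x (n - 1) (σ n)
  tl : ∀ j : ℕ, √(Yk κ x w (n + 1 + j) (σ n)) ≤ Real.exp (-(Pp j) * lam)
  ng : ∀ j : ℕ, -(Real.exp (-(Pn j) * lam)) ≤ x (n + 1 + j) (σ n)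
  tw : ∀ j : ℕ, w (n + 1 + j) (σ n) ≤ dd lam * Real.exp (-(Pp j) * lam)

/-- The current stage on `[σ n, t1)`. -/
structure Cur (κ lam : ℝ) (L : ℕ → ℝ) (T : ℝ) (x w : ℕ → ℝ → ℝ) (n : ℕ) (σ : ℕ → ℝ)
    (t1 : ℝ) : Prop where
  lt : σ n < t1
  leT : t1 ≤ T
  le : t1 ≤ σ n + 62 / 100 * lam / L n
  act : ∀ t ∈ Ico (σ n) t1, Yk κ x w (n + 1) t < 1 ∧ 99 / 100 < x n t

/-- bounds of the quantities of the lower groups -/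
structure Low (lam : ℝ) (L : ℕ → ℝ) (x w : ℕ → ℝ → ℝ) (i : ℕ) (t : ℝ) : Prop where
  U : Ut L x i t ≤ 1501 / 1000 * (L i / lam)
  Uw : Uw L w i t ≤ 2 * dd lam * (L i / lam)
  A : At lam x w i t ≤ 1501 / 1000
  Aw : Aw lam w i t ≤ 2 * dd lam
  lc : loc L x w i t ≤ 20 * dd lam * (L i / lam)
  z : i ≠ 0 → |x (i - 1) t| + w (i - 1) t ≤ 1501 / 1000
  wz : i ≠ 0 → w (i - 1) t ≤ dd lam

/-- a priori bounds of the modes `i ≤ n` on `[σ i, t1)` -/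
structure Ub (κ lam : ℝ) (L : ℕ → ℝ) (x w : ℕ → ℝ → ℝ) (n : ℕ) (σ : ℕ → ℝ) (t1 : ℝ) :
    Prop where
  low : ∀ i ≤ n, ∀ t ∈ Ico (σ i) t1, Low lam L x w i t
  Y : ∀ i ≤ n, ∀ t ∈ Ico (σ i) t1, √(Yk κ x w i t) ≤ 3 / 2
  w : ∀ i ≤ n, ∀ t ∈ Ico (σ i) t1, w i t ≤ dd lam

/-- A priori bounds (upper bounds of the active modes: trap `√Y ≤ 3/2`). -/
def S_UB : Prop := ∀ (κ lam N : ℝ) (L C ℓ : ℕ → ℝ) (B : ℕ → ℕ → ℝ) (T : ℝ)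
  (x w f : ℕ → ℝ → ℝ) (n : ℕ) (σ : ℕ → ℝ) (t1 : ℝ),
  Gd κ lam N L C ℓ B T x w f → Stg κ lam L T x w n σ → t1 ≤ T →
  t1 ≤ σ n + 62 / 100 * lam / L n →
  Ub κ lam L x w n σ t1 ∧ ∀ i ≤ n, (t1 - σ i) * L i ≤ 6201 / 10000 * lam

/-- the shifted mode `n+1` -/
noncomputable def zz (C : ℕ → ℝ) (x : ℕ → ℝ → ℝ) (n : ℕ) (t : ℝ) : ℝ := x (n + 1) t + C n

/-- the exponent of the barriers -/
noncomputable def th (lam : ℝ) (C : ℕ → ℝ) (x : ℕ → ℝ → ℝ) (n : ℕ) (t : ℝ) : ℝ :=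
  1000 / 197 * lam * max (zz C x n t - 8952 / 10000) 0 ^ 2

/-- barrier for the tails `n + 2 + j` -/
noncomputable def bb (lam : ℝ) (C : ℕ → ℝ) (x : ℕ → ℝ → ℝ) (n j : ℕ) (t : ℝ) : ℝ :=
  Real.exp (-(Pp (j + 1)) * lam) * Real.exp (th lam C x n t)

/-- barrier for the negative parts of the modes `n + 2 + j` -/
noncomputable def nb (lam : ℝ) (C : ℕ → ℝ) (x : ℕ → ℝ → ℝ) (n j : ℕ) (t : ℝ) : ℝ :=
  Real.exp (-(Pn (j + 1)) * lam) * Real.exp (th lam C x n t)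

/-- the bootstrap hypotheses at the time `t` -/
structure Hy (κ lam : ℝ) (C : ℕ → ℝ) (x w : ℕ → ℝ → ℝ) (n : ℕ) (t : ℝ) : Prop where
  r : -(C n / 4) < x (n + 1) t
  Y : √(Yk κ x w (n + 2) t) < 2 * bb lam C x n 0 t
  W : √(Wk κ w (n + 1) t) < 4 * dd lam

/-- conclusions for the current stage -/
structure CurC (κ lam : ℝ) (L C : ℕ → ℝ) (x w : ℕ → ℝ → ℝ) (n : ℕ) (σ : ℕ → ℝ) (t : ℝ) :
    Prop where
  X : 9998 / 10000 ≤ x n t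
  time : (t - σ n) * L n ≤ 611 / 1000 * lam
  r : -(C n / 8) ≤ x (n + 1) t
  w1 : w (n + 1) t ≤ dd lam
  tl : ∀ j : ℕ, √(Yk κ x w (n + 2 + j) t) ≤ Real.exp (-(Pp j) * lam)
  tw : ∀ j : ℕ, w (n + 2 + j) t ≤ dd lam * Real.exp (-(Pp j) * lam)
  ng : ∀ j : ℕ, -(Real.exp (-(Pn j) * lam)) ≤ x (n + 2 + j) t

/-- The analysis of one stage. -/
def S_CURC : Prop := ∀ (κ lam N : ℝ) (L C ℓ : ℕ → ℝ) (B : ℕ → ℕ → ℝ) (T : ℝ)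
  (x w f : ℕ → ℝ → ℝ) (n : ℕ) (σ : ℕ → ℝ) (t1 : ℝ),
  Gd κ lam N L C ℓ B T x w f → Stg κ lam L T x w n σ → Cur κ lam L T x w n σ t1 →
  ∀ t ∈ Ioo (σ n) t1, CurC κ lam L C x w n σ t

/-- Induction over the stages. -/
def S_IND : Prop := S_UB → S_CURC → S_ODE6

/-- Hypotheses for the barriers on `[σ n, t]`. -/
structure BH (κ lam N : ℝ) (L C ℓ : ℕ → ℝ) (B : ℕ → ℕ → ℝ) (T : ℝ)
    (x w f : ℕ → ℝ → ℝ) (n : ℕ) (σ : ℕ → ℝ) (t1 t : ℝ) : Prop where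
  g : Gd κ lam N L C ℓ B T x w f
  h : Stg κ lam L T x w n σ
  hc : Cur κ lam L T x w n σ t1
  ub : Ub κ lam L x w n σ t1
  ht : t ∈ Ioo (σ n) t1
  hy : ∀ τ ∈ Ico (σ n) t, Hy κ lam C x w n τ
  hr : 7 / 8 * C n ≤ zz C x n t
  hd : ∀ τ ∈ Ioo (σ n) t, ∃ r', HasDerivAt (zz C x n) r' τ ∧
    985 / 10000 * (L n * zz C x n τ) ≤ r'

/-- The barriers for the energies of the tails and the other modes. -/
def S_BAR1 : Prop := ∀ (κ lam N : ℝ) (L C ℓ : ℕ → ℝ) (B : ℕ → ℕ → ℝ) (T : ℝ)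
  (x w f : ℕ → ℝ → ℝ) (n : ℕ) (σ : ℕ → ℝ) (t1 t : ℝ),
  BH κ lam N L C ℓ B T x w f n σ t1 t →
  ∀ τ ∈ Icc (σ n) t, w (n + 1) τ ≤ dd lam ∧
    ∀ j : ℕ, √(Yk κ x w (n + 2 + j) τ) ≤ bb lam C x n j τ ∧
      w (n + 2 + j) τ ≤ dd lam * bb lam C x n j τ

/-- The barriers for the negative parts of the modes. -/
def S_BAR2 : Prop := ∀ (κ lam N : ℝ) (L C ℓ : ℕ → ℝ) (B : ℕ → ℕ → ℝ) (T : ℝ)
  (x w f : ℕ → ℝ → ℝ) (n : ℕ) (σ : ℕ → ℝ) (t1 t : ℝ),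
  BH κ lam N L C ℓ B T x w f n σ t1 t →
  (∀ τ ∈ Icc (σ n) t, w (n + 1) τ ≤ dd lam ∧
    ∀ j : ℕ, √(Yk κ x w (n + 2 + j) τ) ≤ bb lam C x n j τ ∧
      w (n + 2 + j) τ ≤ dd lam * bb lam C x n j τ) →
  ∀ τ ∈ Icc (σ n) t, ∀ j : ℕ, -(nb lam C x n j τ) ≤ x (n + 2 + j) τ

/-- The growth of the mode `n+1` and the lower bound of the mode `n` during a stage, under the
bootstrap hypotheses. -/
def S_RAT : Prop := ∀ (κ lam N : ℝ) (L C ℓ : ℕ → ℝ) (B : ℕ → ℕ → ℝ) (T : ℝ)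
  (x w f : ℕ → ℝ → ℝ) (n : ℕ) (σ : ℕ → ℝ) (t1 t : ℝ),
  Gd κ lam N L C ℓ B T x w f → Stg κ lam L T x w n σ → Cur κ lam L T x w n σ t1 →
  Ub κ lam L x w n σ t1 →
  t ∈ Ioo (σ n) t1 → (∀ τ ∈ Ico (σ n) t, Hy κ lam C x w n τ) →
  (∀ τ ∈ Ioo (σ n) t, ∃ r', HasDerivAt (zz C x n) r' τ ∧
    985 / 10000 * (L n * zz C x n τ) ≤ r') ∧
  7 / 8 * C n ≤ zz C x n t ∧ 9998 / 10000 ≤ x n t ∧
  (t - σ n) * L n ≤ 611 / 1000 * lam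

/-- Closing the bootstrap. -/
def S_CLOSE : Prop := S_UB → S_BAR1 → S_BAR2 → S_RAT → S_CURC

end Pool.Agent.Y8.EP
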