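import Pool.Agent.Y8.EP.Stm
import Pool.Agent.Y5.G.Stm

/-!
The endpoint combined with the dilations of stage 5:
`L = ν (-Δ)^α + D` with `0 ≤ D ≤ C (-Δ)^α` (for some `C`) and `D ≤ δ (-Δ)^α'` (given `α' > α`,
`δ > 0`).
-/

open Set Filter Topology MeasureTheory

set_option autoImplicit false

namespace Pool.Agent.Y8.EP

open Pool.Agent.Y5 Pool.Agent.Y5.D Pool.Agent.Y5.E Pool.Agent.Y5.F Pool.Agent.Y5.G
open Pool.Agent.Y274.NE (Bs)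

/-- A complete orthonormal system of trigonometric polynomials `e i` and eigenvalues
`lam i ≥ 0`: the linear dissipation `L = ∑ lam i ⟨·, e i⟩ e i` is `ν (-Δ)^α + D` where
`0 ≤ D ≤ C (-Δ)^α` for a constant `C`, and `D ≤ δ (-Δ)^α'` (as quadratic forms); `L` is of order
at most `2 α`. -/
structure Diss6 {ι : Type} (ν α α' δ : ℝ) (e : ι → E3 → E3) (lam : ι → ℝ) : Prop where
  field : ∀ i, TP (e i)
  nonneg : ∀ i, 0 ≤ lam i
  orth : ∀ i j, (i = j → ip (e i) (e j) = 1) ∧ (i ≠ j → ip (e i) (e j) = 0)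
  pars : ∀ v, PF v → HasSum (fun i => ip v (e i) ^ 2) (ip v v)
  summ : ∀ v, PF v → Summable (fun i => lam i * ip v (e i) ^ 2)
  low : ∀ v, PF v → ν * sob α v ≤ ∑' i, lam i * ip v (e i) ^ 2
  up : ∀ v, PF v → ∑' i, lam i * ip v (e i) ^ 2 ≤ ν * sob α v + δ * sob α' v
  cmp : ∃ Cu : ℝ, ∀ v, PF v → ∑' i, lam i * ip v (e i) ^ 2 ≤ Cu * sob α v
  ord : ∀ m : ℕ, ∃ Cm : ℝ, ∀ v, PF v → ∃ w, PF w ∧ (∀ i, ip w (e i) = lam i * ip v (e i)) ∧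
    sob m w ≤ Cm * sob (m + 2 * α) v

/-- The blow-up in terms of the coefficients. -/
def S_EX6 : Prop := ∀ ν α : ℝ, 0 < ν → 1 ≤ α → α < 5 / 4 →
  ∃ (J : Type) (g : J → ℕ) (L M : ℕ → ℝ) (e : Ix J → Fam) (lam : Ix J → ℝ) (T : ℝ)
    (V : ℝ → Fam), Bs g L M e ∧ Diss4 ν α α (fun a => fieldOf (e a)) lam ∧
    (∃ D : ℝ, ∀ a, lam a ≤ D * L (gr g a)) ∧ 0 < T ∧ CSol e lam T V ∧
    (∀ k, V 0 k = e (Sum.inl 0) k) ∧
    (∀ t ∈ Ico 0 T, HasDerivWithinAt (fun τ => pair (V τ) (V τ))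
      (-(2 * ∑' a, lam a * pair (V t) (e a) ^ 2)) (Ico 0 T) t) ∧
    ∀ R : ℝ, ∃ t ∈ Ico 0 T, ∃ y, R < ‖fieldOf (V t) y‖

/-- The blow-up in terms of the coefficients, from the kernels. -/
def S_EXA6 : Prop := S_FLD2 → S_BLOW5 → S_CONC5 → S_EX6

/-- The linear dissipation of the combined system. -/
def S_DIS6 : Prop := ∀ (J : Type) (g : J → ℕ) (L M : ℕ → ℝ) (e : Ix J → Fam) (lam : Ix J → ℝ)
  (ν α α' δ : ℝ), 0 < ν → 1 ≤ α → α < α' → 0 < δ → Bs g L M e →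
  Diss4 ν α α (fun a => fieldOf (e a)) lam →
  ∃ N : ℕ, 0 < N ∧ Diss6 ν α α' δ (fun a => fieldOf (eC N e a)) (lamC ν α N lam)

/-- The linear dissipation of the combined system, from the steps of stage 5. -/
def S_DISA6 : Prop := S_FLD2 → S_DIL → S_CMP → S_OBC → S_DIS6

/-- The main theorem: for all `1 ≤ α < 5/4`, `α' > α` and `δ > 0` there is a linear dissipation
`L = ν (-Δ)^α + D`, `0 ≤ D ≤ C (-Δ)^α`, `D ≤ δ (-Δ)^α'`, for which the Navier-Stokes equations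
blow up. -/
def S_MAIN6 : Prop := ∀ ν α α' δ : ℝ, 0 < ν → 1 ≤ α → α < 5 / 4 → α < α' → 0 < δ →
  ∃ (ι : Type) (e : ι → E3 → E3) (lam : ι → ℝ) (T : ℝ) (u : ℝ → E3 → E3),
    Diss6 ν α α' δ e lam ∧ 0 < T ∧ Sol2 e lam T u ∧ TP (u 0) ∧
    -- uniqueness, and `T` is the maximal time of existence
    (∀ (T' : ℝ) (v : ℝ → E3 → E3), 0 < T' → Sol2 e lam T' v → v 0 = u 0 →
      T' ≤ T ∧ ∀ t ∈ Ico 0 T', v t = u t) ∧
    -- energy identity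
    (∀ t ∈ Ico 0 T, HasDerivWithinAt (fun τ => ip (u τ) (u τ))
      (-(2 * ∑' i, lam i * ip (u t) (e i) ^ 2)) (Ico 0 T) t) ∧
    -- blow-up of the velocity
    ∀ M : ℝ, ∃ t ∈ Ico 0 T, ∃ y, M < ‖u t y‖

/-- The assembly. -/
def S_ASM6 : Prop := S_FLD2 → S_EX6 → S_UNI → S_DIL → S_CMP → S_OBC → S_DIS6 → S_MAIN6

end Pool.Agent.Y8.EP
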